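import Pool.Agent.H354.ISO.Fin2
import Pool.Agent.H898.ISO.REC1
import Pool.Agent.H887.ISO.REC
import Pool.Agent.H906.ISO.HOM
import Pool.Agent.H368.ISO.LIFT
import Pool.Agent.H740.ISO.TRANSP
import Pool.Agent.H143.ISO.PROF

set_option autoImplicit false

/-! # Profinite rigidity among Artin groups: the labels are visible in the finite quotients

The generators of an Artin group `A_M` are divided into odd classes (the connected components of
the graph of the odd labels). For a prime `p` let `v_p(C, D)` be the least `p`-adic valuation of
`m_st / 2` over the finite labels between the classes `C` and `D` (infinity if there is none). If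
the profinite completions of `A_M` and `A_M'` are isomorphic, then for every prime `p` the complete
graphs on the odd classes with the labels `v_p(C, D)` are isomorphic. So two even Artin groups with
isomorphic profinite completions are isomorphic, with the same Coxeter matrix, if for some prime `p`
the finite labels of the two matrices are distinguished by their `p`-adic valuations; for example
right-angled Artin groups, or even Artin groups with labels `2 p ^ k` and infinity.

Outline. For `α, β : A_M → 𝔽_p`, i.e. functions on the odd classes, there is a lift of `(α, β)` to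
the Heisenberg group over `ℤ/p^e` if and only if `α_C β_D = α_D β_C` for all `C, D` with
`v_p(C, D) < e`. Homomorphisms to finite groups are the continuous homomorphisms of the profinite
completion, so an isomorphism of the completions gives a linear isomorphism of the functions on the
odd classes which preserves these relations for all `e`, and these relations determine the graph
(see `MP_cc188c_al.ValuationGraph`).

Formalised with helpers 143, 368, 740, 887, 898 and 906. -/

namespace Pool.Agent.Results.MP_f6e909_al.ValuationGraph

/-- The Artin group on `Fin n` with labels `m` (`0` stands for infinity). -/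
abbrev Artin {n : ℕ} (m : Fin n → Fin n → ℕ) : Type :=
  PresentedGroup
    {r : FreeGroup (Fin n) | ∃ i j : Fin n, m i j ≠ 0 ∧
      r = ((CoxeterSystem.alternatingWord i j (m i j)).map FreeGroup.of).prod *
        (((CoxeterSystem.alternatingWord j i (m i j)).map FreeGroup.of).prod)⁻¹}

/-- The odd classes: the generators modulo the equivalence relation generated by the pairs with
an odd label. -/
def OddClass {n : ℕ} (M : CoxeterMatrix (Fin n)) : Type :=
  Quot (fun i j : Fin n => Odd (M i j))

/-- `C` and `D` are different odd classes and for some `s` in `C` and `t` in `D` the label `m_st`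
is finite and `q` does not divide `m_st / 2`. -/
def Joined {n : ℕ} (M : CoxeterMatrix (Fin n)) (q : ℕ) (C D : OddClass M) : Prop :=
  C ≠ D ∧ ∃ s t : Fin n, Quot.mk _ s = C ∧ Quot.mk _ t = D ∧ M s t ≠ 0 ∧ ¬ q ∣ M s t / 2

open Pool.Agent.H354.ISO

/-- Let the profinite completions of the Artin groups of the Coxeter matrices `M` and `M'` be
isomorphic as topological groups and let `p` be a prime. Then (1) some bijection between the odd
classes preserves, for all `e`, the relation that some label `2 k` between two classes is finite
with `p ^ e ∤ k`. (2) If all labels are even or infinite, and if a label of `M` and a label of `M'`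
which are finite and have the same `p`-adic valuation are always equal, then `M` and `M'` agree up
to the numbering of the generators. -/
theorem result (n n' : ℕ) (M : CoxeterMatrix (Fin n)) (M' : CoxeterMatrix (Fin n'))
    (h : Nonempty (ProfiniteGrp.ProfiniteCompletion.completion (GrpCat.of (Artin M)) ≃ₜ*
      ProfiniteGrp.ProfiniteCompletion.completion (GrpCat.of (Artin M'))))
    (p : ℕ) (hp : p.Prime) :
    (∃ σ : OddClass M ≃ OddClass M', ∀ (e : ℕ) (C D : OddClass M),
      Joined M (p ^ e) C D ↔ Joined M' (p ^ e) (σ C) (σ D)) ∧
    ((∀ i j, i ≠ j → Even (M i j)) → (∀ i j, i ≠ j → Even (M' i j)) →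
      (∀ i j k l, i ≠ j → k ≠ l → M i j ≠ 0 → M' k l ≠ 0 →
        padicValNat p (M i j) = padicValNat p (M' k l) → M i j = M' k l) →
      ∃ τ : Fin n ≃ Fin n', ∀ i j, M i j = M' (τ i) (τ j)) := by
  have h1 := fin2 Pool.Agent.H898.ISO.REC1.t_REC1 Pool.Agent.H887.ISO.REC.t_REC
    Pool.Agent.H906.ISO.HOM.t_HOM Pool.Agent.H368.ISO.LIFT.t_LIFT
    Pool.Agent.H740.ISO.TRANSP.t_TRANSP Pool.Agent.H143.ISO.PROF.t_PROF n n' M M' h p hp
  exact ⟨h1, fun hM hM' hL => rigid n n' M M' p hp hM hM' hL h1⟩

end Pool.Agent.Results.MP_f6e909_al.ValuationGraph
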